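import Pool.Agent.helper32.TRG.Spec

/-!
# Row Z5C of project TRG: five conjugates of an element of type `-2` generate
-/

set_option autoImplicit false
open Finset
namespace Pool.Agent.TRI

open Pool.Agent.EXC

theorem Z5C_gen (F : Type) [Field F] [Finite F] : ∃ t : F, ∀ A : Subring F, t ∈ A → A = ⊤ := by
  obtain ⟨g, hg⟩ := IsCyclic.exists_monoid_generator (α := Fˣ)
  refine ⟨(g : F), fun A hA => ?_⟩
  rw [eq_top_iff]
  intro u _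
  by_cases hu : u = 0
  · rw [hu]
    exact A.zero_mem
  · obtain ⟨k, hk⟩ := hg (Units.mk0 u hu)
    have h1 := congrArg Units.val hk
    rw [Units.val_mk0] at h1
    rw [← h1]
    push_cast
    exact A.pow_mem hA k

theorem Z5C_prd_append {n : ℕ} (C : Matrix (Fin n) (Fin n) ℤ) [IsC C] {F : Type} [Field F] (t : F)
    (P Q : List ((Fin n → ℤ) × Bool)) : prd C t (P ++ Q) = prd C t P * prd C t Q := by
  unfold prd
  rw [List.map_append, List.prod_append]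

theorem Z5C_prd_mem {n : ℕ} (C : Matrix (Fin n) (Fin n) ℤ) [IsC C] {F : Type} [Field F] (t : F)
    (H : Subgroup (Lm C F ≃ₗ[F] Lm C F)) (hH : ∀ α, ip C α α = 2 → XG C α (1 : F) ∈ H)
    (P : List ((Fin n → ℤ) × Bool)) (hP : ∀ p ∈ P, p.2 = true ∧ ip C p.1 p.1 = 2) : prd C t P ∈ H := by
  unfold prd
  refine Subgroup.list_prod_mem _ fun x hx => ?_
  obtain ⟨p, hp, rfl⟩ := List.mem_map.1 hx
  obtain ⟨h1, h2⟩ := hP p hp
  rw [h1, if_pos rfl]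
  exact hH _ h2

theorem Z5C_XP {F : Type} [Field F] (α : Fin 4 → ℤ) (t : F) : XP 0 (1 : F) α t = XG C4 α t := by
  unfold XP
  rw [one_zpow, mul_one]

theorem Z5C (hN4N : N4N_stmt) (hCN4 : CN4_stmt) (hGSN : GSN_stmt) (hGYC : GYC_stmt) : Z5C_stmt := by
  intro F _ _ hCt a b y hTp hY4
  have hθ : ip C4 th4 th4 = 2 := th4_root
  have hθ' : ip C4 (-th4) (-th4) = 2 := neg_root C4 hθ
  obtain ⟨t, ht⟩ := Z5C_gen F
  obtain ⟨g0, h0, hg, hh, hy⟩ := hY4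
  have hEXF := g4_EXF F
  obtain ⟨hExa, hExb, -, -, -, hfm2, -, -⟩ := g4_TPF F a b (-2) hTp
  have hfm : fm C4 a b ≠ 0 := hfm2.2 rfl
  obtain ⟨σ, hσdef⟩ : ∃ σ : F, σ = fm C4 a b := ⟨_, rfl⟩
  have hσ : σ ≠ 0 := by rw [hσdef]; exact hfm
  have hEθ : Ex C4 (E C4 th4 : Lm C4 F) := hEXF.2.1 th4 hθ
  have hEθ' : Ex C4 (E C4 (-th4) : Lm C4 F) := hEXF.2.1 (-th4) hθ'
  have hEσ : Ex C4 (σ • E C4 (-th4) : Lm C4 F) := (hEXF.2.2.1 _ hEθ').2.2.2.1 σ hσ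
  have hf2 : fm C4 (E C4 th4 : Lm C4 F) (σ • E C4 (-th4)) = σ := by
    rw [fm_smul_right, fm_E_E C4 hθ hθ', if_pos rfl, mul_one]
  obtain ⟨k, hk, hka, hkb⟩ := hCN4 F a b (E C4 th4) (σ • E C4 (-th4)) hExa hExb hEθ hEσ hfm
    (by rw [hf2, hσdef])
  have hka2 := (hEXF.2.2.1 a hExa).2.2.2.2.2.2.2.1 k hk 1 g0 hg
  have hkb2 := (hEXF.2.2.1 b hExb).2.2.2.2.2.2.2.1 k hk 1 h0 hh
  rw [hka] at hka2
  rw [hkb] at hkb2
  have h1 : k * (g0 : Lm C4 F ≃ₗ[F] Lm C4 F) * k⁻¹ = XG C4 th4 1 := by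
    apply LinearEquiv.ext
    intro v
    rw [hka2 v, (g_XG F th4 hθ 1).1 v]
  have h2 : k * (h0 : Lm C4 F ≃ₗ[F] Lm C4 F) * k⁻¹ = XG C4 (-th4) σ := by
    apply LinearEquiv.ext
    intro v
    have hX := (hEXF.2.2.1 _ (hEXF.2.1 (-th4) hθ')).1
    rw [hkb2 v, ((f_XAU 4 C4 F _ hX).2.2.2 σ).2 1 v, mul_one, (g_XG F (-th4) hθ' σ).1 v]
  have hY : k * (y : Lm C4 F ≃ₗ[F] Lm C4 F) * k⁻¹ = XG C4 th4 1 * XG C4 (-th4) σ := by
    rw [hy, ← h1, ← h2, Subgroup.coe_mul]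
    group
  obtain ⟨PL, hlen, hOk, ⟨P₁, P₂, v, hPv, hv, hP12⟩, hCg⟩ := hCt
  have hYC := fun l hl => hGYC 4 C4 F hb4 th4 hθ σ t hσ l (hOk l hl)
  have hYC2 : ∀ i : Fin 4, ∃ h ∈ GE C4 F, (XG C4 th4 1 * XG C4 (-th4) σ) * h * (XG C4 th4 1 * XG C4 (-th4) σ)⁻¹ * h⁻¹ =
      prd C4 t (PL.get (i.cast hlen.symm)) := fun i => (hYC _ (List.get_mem PL _)).2
  choose h hhG hhP using hYC2
  obtain ⟨g, hgdef⟩ : ∃ g : Fin 5 → EG C4 F, g = Fin.cons (⟨k, hk⟩ : EG C4 F)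
      (fun i : Fin 4 => (⟨h i * k, mul_mem (hhG i) hk⟩ : EG C4 F)) := ⟨_, rfl⟩
  have hg0 : ((g 0 : EG C4 F) : Lm C4 F ≃ₗ[F] Lm C4 F) = k := by rw [hgdef]; rfl
  have hgs : ∀ i : Fin 4, ((g i.succ : EG C4 F) : Lm C4 F ≃ₗ[F] Lm C4 F) = h i * k := by
    intro i; rw [hgdef]; rfl
  refine ⟨g, ?_⟩
  have hmem : ∀ i, ((g i * y * (g i)⁻¹ : EG C4 F) : Lm C4 F ≃ₗ[F] Lm C4 F) ∈
      (Subgroup.closure (Set.range fun i => g i * y * (g i)⁻¹)).map (GE C4 F).subtype := fun i =>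
    ⟨_, Subgroup.subset_closure ⟨i, rfl⟩, rfl⟩
  generalize hH' : Subgroup.closure (Set.range fun i => g i * y * (g i)⁻¹) = H' at hmem ⊢
  have hYH : XG C4 th4 1 * XG C4 (-th4) σ ∈ H'.map (GE C4 F).subtype := by
    have h3 := hmem 0
    rw [← hY]
    have h4 : ((g 0 * y * (g 0)⁻¹ : EG C4 F) : Lm C4 F ≃ₗ[F] Lm C4 F) = k * (y : Lm C4 F ≃ₗ[F] Lm C4 F) * k⁻¹ := by
      rw [Subgroup.coe_mul, Subgroup.coe_mul, Subgroup.coe_inv, hg0]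
    rwa [h4] at h3
  have hPH : ∀ P ∈ PL, prd C4 t P ∈ H'.map (GE C4 F).subtype := by
    intro P hP
    obtain ⟨i, hi⟩ := List.get_of_mem hP
    have h5 := hhP (i.cast hlen)
    have h6 : (i.cast hlen).cast hlen.symm = i := by ext; rfl
    rw [h6, hi] at h5
    rw [← h5]
    have h7 := hmem (i.cast hlen).succ
    have h8 : ((g (i.cast hlen).succ * y * (g (i.cast hlen).succ)⁻¹ : EG C4 F) : Lm C4 F ≃ₗ[F] Lm C4 F) =
        h (i.cast hlen) * (XG C4 th4 1 * XG C4 (-th4) σ) * (h (i.cast hlen))⁻¹ := by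
      rw [Subgroup.coe_mul, Subgroup.coe_mul, Subgroup.coe_inv, hgs, ← hY]
      group
    rw [h8] at h7
    have h9 := mul_mem hYH (inv_mem h7)
    have h10 : XG C4 th4 1 * XG C4 (-th4) σ * (h (i.cast hlen) * (XG C4 th4 1 * XG C4 (-th4) σ) * (h (i.cast hlen))⁻¹)⁻¹ =
        XG C4 th4 1 * XG C4 (-th4) σ * h (i.cast hlen) * (XG C4 th4 1 * XG C4 (-th4) σ)⁻¹ * (h (i.cast hlen))⁻¹ := by
      group
    rwa [h10] at h9
  have hS := hGSN 4 C4 F hb4 PL [th4] t (H'.map (GE C4 F).subtype) (fun P hP p hp => (hYC P hP).1 p hp) hPH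
    (fun a ha => by
      rw [List.mem_singleton] at ha
      rw [ha]
      exact ⟨hθ, σ, hYH⟩)
  obtain ⟨hG1', hG2⟩ := hN4N F 0 1 one_ne_zero (H'.map (GE C4 F).subtype)
    (fun i => ⟨by rw [Z5C_XP]; exact (hS _ (hCg i).1).2, by rw [Z5C_XP]; exact (hS _ (hCg i).2).2⟩)
  have hG1 : ∀ α, ip C4 α α = 2 → XG C4 α (1 : F) ∈ H'.map (GE C4 F).subtype := by
    intro α hα
    have h := hG1' α hα
    rwa [Z5C_XP] at h
  have hvt : XG C4 v t ∈ H'.map (GE C4 F).subtype := by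
    have h11 := hPH _ hPv
    have h12 := Z5C_prd_mem C4 t _ hG1 P₁ (fun p hp => hP12 p (List.mem_append_left _ hp))
    have h13 := Z5C_prd_mem C4 t _ hG1 P₂ (fun p hp => hP12 p (List.mem_append_right _ hp))
    have h14 : prd C4 t (P₁ ++ (v, false) :: P₂) = prd C4 t P₁ * (XG C4 v t * prd C4 t P₂) := by
      rw [Z5C_prd_append]
      rfl
    rw [h14] at h11
    have h15 := mul_mem (mul_mem (inv_mem h12) h11) (inv_mem h13)
    have h16 : (prd C4 t P₁)⁻¹ * (prd C4 t P₁ * (XG C4 v t * prd C4 t P₂)) * (prd C4 t P₂)⁻¹ = XG C4 v t := by group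
    rwa [h16] at h15
  have hfin := hG2 v t hv (by rw [Z5C_XP]; exact hvt) ht
  rw [eq_top_iff]
  intro x _
  obtain ⟨x', hx', hxx⟩ := hfin x.2
  have h17 : x' = x := Subtype.ext hxx
  rw [← h17]
  exact hx'

end Pool.Agent.TRI
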